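import Pool.Agent.E8helper55.DB.Stm3

/-!
# Project DB, piece NUM3
-/

set_option autoImplicit false

namespace Pool.Agent.E8helper37.DB

open Finset Pool.Agent.E8helper55.DB

theorem log36 : Real.log 36 ≤ 26 / 5 * Real.log 2 := by
  have h1 : Real.log (36 ^ 5) ≤ Real.log (2 ^ 26) :=
    Real.log_le_log (by norm_num) (by norm_num)
  rw [Real.log_pow, Real.log_pow] at h1
  push_cast at h1
  linarith

theorem num3_holds (h : VOL36) : NUM3 := by
  refine ⟨Real.exp (101 * Real.log 2), Real.exp_pos _, fun n W hW => ?_⟩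
  obtain ⟨q, hq⟩ : ∃ q, q = n / 100 := ⟨_, rfl⟩
  obtain ⟨L, hL⟩ : ∃ L, L = Real.log 2 := ⟨_, rfl⟩
  have hL1 : 0.69 < L := by rw [hL]; have := Real.log_two_gt_d9; linarith
  have hL2 : L < 0.6931471808 := by rw [hL]; exact Real.log_two_lt_d9
  have hq1 : 100 * q ≤ n := by omega
  have hq2 : n ≤ 100 * q + 99 := by omega
  have hq1' : 100 * (q : ℝ) ≤ n := by exact_mod_cast hq1
  have hq2' : (n : ℝ) ≤ 100 * q + 99 := by exact_mod_cast hq2
  have hq0 : (0 : ℝ) ≤ q := Nat.cast_nonneg _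
  rw [← hq]
  have hv := h n q hq1
  obtain ⟨v, hvv⟩ : ∃ v : ℝ, v = ((∑ i ∈ range (40 * q + 1), n.choose i : ℕ) : ℝ) := ⟨_, rfl⟩
  rw [← hvv] at hv ⊢
  have e1 : ∀ m : ℕ, (2 : ℝ) ^ m = Real.exp (L * m) := by
    intro m
    rw [hL, mul_comm, Real.exp_nat_mul, Real.exp_log (by norm_num)]
  have e2 : ∀ x : ℝ, (2 : ℝ) ^ x = Real.exp (L * x) := by
    intro x
    rw [hL, Real.rpow_def_of_pos (by norm_num)]
  have h36 : (36 : ℝ) ^ q ≤ Real.exp (26 / 5 * L * q) := by
    have h1 : (36 : ℝ) ^ q = Real.exp (q * Real.log 36) := by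
      rw [Real.exp_nat_mul, Real.exp_log (by norm_num)]
    rw [h1]
    apply Real.exp_le_exp.2
    have := log36
    rw [← hL] at this
    nlinarith
  have hv0 : Real.exp (94.8 * L * q) ≤ v := by
    have hv1 : 0 < v := by
      by_contra hcon
      rw [not_lt] at hcon
      have h2 : (36 : ℝ) ^ q * v ≤ 0 := mul_nonpos_of_nonneg_of_nonpos (by positivity) hcon
      have h3 : (0 : ℝ) < 2 ^ (100 * q) := by positivity
      linarith
    have h2 : Real.exp (L * ((100 * q : ℕ) : ℝ)) ≤ Real.exp (26 / 5 * L * q) * v := by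
      rw [← e1]
      exact hv.trans (mul_le_mul_of_nonneg_right h36 hv1.le)
    have h3 : Real.exp (94.8 * L * q) * Real.exp (26 / 5 * L * q) =
        Real.exp (L * ((100 * q : ℕ) : ℝ)) := by
      rw [← Real.exp_add]
      congr 1
      push_cast
      ring
    rw [← h3, mul_comm] at h2
    exact le_of_mul_le_mul_left h2 (Real.exp_pos _)
  have hvp : 0 < Real.exp (94.8 * L * q) := Real.exp_pos _
  have hA : (2 : ℝ) ^ ((47 : ℝ) / 50 * n) / Real.exp (94.8 * L * q) ≤
      Real.exp (100 * L) * Real.exp (-((n : ℝ) / 20000)) := by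
    rw [e2, ← Real.exp_sub, ← Real.exp_add]
    apply Real.exp_le_exp.2
    nlinarith
  have hB : (2 : ℝ) ^ n * Real.exp (-(2 * (47 / 100) ^ 2 * ((9 * q : ℕ) : ℝ))) /
      Real.exp (94.8 * L * q) ≤ Real.exp (100 * L) * 2 ^ (-((n : ℝ) / 200)) := by
    rw [e1, e2, ← Real.exp_add, ← Real.exp_sub, ← Real.exp_add]
    apply Real.exp_le_exp.2
    push_cast
    have h5 : 5.7 * L * q ≤ 3.9762 * q := mul_le_mul_of_nonneg_right (by linarith) hq0
    have h6 : L * n ≤ L * (100 * q + 99) := mul_le_mul_of_nonneg_left hq2' (by linarith)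
    nlinarith
  have hC : Real.exp (-(2 * (1 / 200) ^ 2 * n)) = Real.exp (-((n : ℝ) / 20000)) := by
    congr 1
    ring
  have hnum : 0 ≤ W * (2 ^ n * Real.exp (-(2 * (47 / 100) ^ 2 * ((9 * q : ℕ) : ℝ)))) +
      2 ^ ((47 : ℝ) / 50 * n) := by positivity
  have hdiv := div_le_div_of_nonneg_left hnum hvp hv0
  rw [hC]
  refine (add_le_add_right hdiv _).trans ?_
  rw [add_div, mul_div_assoc]
  have h101 : 2 * Real.exp (100 * L) ≤ Real.exp (101 * L) := by
    have : Real.exp (101 * L) = Real.exp (100 * L) * Real.exp L := by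
      rw [← Real.exp_add]
      congr 1
      ring
    rw [this, hL, Real.exp_log (by norm_num)]
    linarith [Real.exp_pos (100 * Real.log 2)]
  rw [← hL]
  have hE : 0 < Real.exp (-((n : ℝ) / 20000)) := Real.exp_pos _
  have h1le : 1 ≤ Real.exp (100 * L) := Real.one_le_exp (by linarith)
  have h2p : (0 : ℝ) < 2 ^ (-((n : ℝ) / 200)) := by positivity
  have hWB := mul_le_mul_of_nonneg_left hB hW
  have g1 : Real.exp (100 * L) * (W * 2 ^ (-((n : ℝ) / 200))) ≤
      Real.exp (101 * L) * (W * 2 ^ (-((n : ℝ) / 200))) :=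
    mul_le_mul_of_nonneg_right (by linarith) (by positivity)
  have g2 : (1 + Real.exp (100 * L)) * Real.exp (-((n : ℝ) / 20000)) ≤
      Real.exp (101 * L) * Real.exp (-((n : ℝ) / 20000)) :=
    mul_le_mul_of_nonneg_right (by linarith) hE.le
  nlinarith

end Pool.Agent.E8helper37.DB
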